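import Pool.Agent.Helper63.Sey4.Goals

/-! Packet SEY4-PLACE (the places). -/

namespace Pool.Agent.Helper36.Sey4

open Pool.Agent.Helper63.Sey4
open Classical

set_option linter.unusedSectionVars false

section

variable {V : Type} [Fintype V] {H : SimpleGraph V} {f : V → ℕ} {s Δ D : ℕ} {E : Type} [Fintype E]
  {pos neg : E → ℕ} {z : E × Bool × Bool → V} {τ : E → ℕ} {row : V → ℕ}

/-- the exchanged classes in row `g` -/
def SS (s : ℕ) (pos neg : E → ℕ) (τ : E → ℕ) (g p p' : ℕ) : Prop :=
  ∃ e, neg e < s ∧ md τ e = g ∧ ((pos e = p ∧ neg e = p') ∨ (neg e = p ∧ pos e = p'))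

/-- the exchange in row `g` -/
noncomputable def sw (s : ℕ) (pos neg : E → ℕ) (τ : E → ℕ) (g p : ℕ) : ℕ :=
  if h : ∃ p', SS s pos neg τ g p p' then h.choose else p

/-- the virtual class -/
noncomputable def cl (f : V → ℕ) (s : ℕ) (neg : E → ℕ) (z : E × Bool × Bool → V) (v : V) : ℕ :=
  if h : ∃ e, neg e < s ∧ v = z (e, false, true) then neg h.choose else f v

/-- the flag -/
noncomputable def flg (s : ℕ) (neg : E → ℕ) (z : E × Bool × Bool → V) (v : V) : ℕ :=
  if ∃ e, neg e = s ∧ v = z (e, false, true) then 1 else 0

theorem SS.symm {g p p' : ℕ} (h : SS s pos neg τ g p p') : SS s pos neg τ g p' p := by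
  obtain ⟨e, h1, h2, h3⟩ := h
  refine ⟨e, h1, h2, ?_⟩
  rcases h3 with ⟨a, b⟩ | ⟨a, b⟩
  · exact Or.inr ⟨b, a⟩
  · exact Or.inl ⟨b, a⟩

theorem unit_eq (hsh : ∀ e e', e ≠ e' → Share s pos neg e e' → τ e ≠ τ e') {e e' : E}
    (h : Share s pos neg e e') (ht : τ e = τ e') : e = e' := by
  by_contra hne
  exact hsh e e' hne h ht

theorem SS_unique (U : Units H f s Δ D E pos neg z)
    (hsh : ∀ e e', e ≠ e' → Share s pos neg e e' → τ e ≠ τ e') {g p p' p'' : ℕ}
    (h : SS s pos neg τ g p p') (h' : SS s pos neg τ g p p'') : p' = p'' := by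
  obtain ⟨e, h1, h2, h3⟩ := h
  obtain ⟨e', h1', h2', h3'⟩ := h'
  have ht : τ e = τ e' := by
    have := h2.trans h2'.symm
    unfold md at this
    omega
  have hs : Share s pos neg e e' := by
    rcases h3 with ⟨a, b⟩ | ⟨a, b⟩ <;> rcases h3' with ⟨a', b'⟩ | ⟨a', b'⟩
    · exact Or.inl (a.trans a'.symm)
    · exact Or.inr (Or.inr (Or.inl (a.trans a'.symm)))
    · exact Or.inr (Or.inr (Or.inr (a.trans a'.symm)))
    · exact Or.inr (Or.inl ⟨a.trans a'.symm, h1⟩)
  have he := unit_eq hsh hs ht
  subst he
  have hne := U.hne e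
  rcases h3 with ⟨a, b⟩ | ⟨a, b⟩ <;> rcases h3' with ⟨a', b'⟩ | ⟨a', b'⟩ <;> omega

theorem sw_eq (U : Units H f s Δ D E pos neg z)
    (hsh : ∀ e e', e ≠ e' → Share s pos neg e e' → τ e ≠ τ e') {g p p' : ℕ}
    (h : SS s pos neg τ g p p') : sw s pos neg τ g p = p' := by
  have hex : ∃ p', SS s pos neg τ g p p' := ⟨p', h⟩
  unfold sw
  rw [dif_pos hex]
  exact SS_unique U hsh hex.choose_spec h

theorem sw_id {g p : ℕ} (h : ¬ ∃ p', SS s pos neg τ g p p') : sw s pos neg τ g p = p := by
  unfold sw
  rw [dif_neg h]

theorem sw_sw (U : Units H f s Δ D E pos neg z)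
    (hsh : ∀ e e', e ≠ e' → Share s pos neg e e' → τ e ≠ τ e') (g p : ℕ) :
    sw s pos neg τ g (sw s pos neg τ g p) = p := by
  by_cases h : ∃ p', SS s pos neg τ g p p'
  · obtain ⟨p', h⟩ := h
    rw [sw_eq U hsh h, sw_eq U hsh h.symm]
  · rw [sw_id h, sw_id h]

theorem sw_lt (U : Units H f s Δ D E pos neg z)
    (hsh : ∀ e e', e ≠ e' → Share s pos neg e e' → τ e ≠ τ e') {g p : ℕ} (hp : p < s) :
    sw s pos neg τ g p < s := by
  by_cases h : ∃ p', SS s pos neg τ g p p'
  · obtain ⟨p', h⟩ := h
    rw [sw_eq U hsh h]
    obtain ⟨e, h1, h2, h3⟩ := h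
    have := U.hpos e
    rcases h3 with ⟨a, b⟩ | ⟨a, b⟩ <;> omega
  · rw [sw_id h]
    exact hp

theorem z_eq (U : Units H f s Δ D E pos neg z) {e e' : E} {b c b' c' : Bool}
    (h : z (e, b, c) = z (e', b', c')) : e = e' ∧ b = b' ∧ c = c' := by
  have := U.hz h
  simp only [Prod.mk.injEq] at this
  exact this

theorem cl_sp (U : Units H f s Δ D E pos neg z) {e : E} (he : neg e < s) :
    cl f s neg z (z (e, false, true)) = neg e := by
  have hex : ∃ e', neg e' < s ∧ z (e, false, true) = z (e', false, true) := ⟨e, he, rfl⟩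
  unfold cl
  rw [dif_pos hex]
  have := (z_eq U hex.choose_spec.2).1
  rw [← this]

theorem cl_ord {v : V} (h : ¬ ∃ e, neg e < s ∧ v = z (e, false, true)) :
    cl f s neg z v = f v := by
  unfold cl
  rw [dif_neg h]

theorem slot_dr (e : E) : dr pos neg τ e / 3 = τ e := by
  unfold dr
  split_ifs <;> omega

theorem slot_md (e : E) : md τ e / 3 = τ e := by
  unfold md
  omega

/-- a vertex of a class of an active unit in the middle row -/
theorem pl_md (U : Units H f s Δ D E pos neg z)
    (hsh : ∀ e e', e ≠ e' → Share s pos neg e e' → τ e ≠ τ e')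
    (R : Rows H f s Δ E pos neg z τ row) {e : E} {v : V} (he : neg e < s) (hr : row v = md τ e)
    (hc : pos e = f v ∨ neg e = f v) :
    sw s pos neg τ (row v) (cl f s neg z v) = if pos e = f v then neg e else pos e := by
  have hord : ¬ ∃ e', neg e' < s ∧ v = z (e', false, true) := by
    rintro ⟨e', he', rfl⟩
    have h1 : τ e' = τ e := by
      rw [R.hdr] at hr
      have := slot_dr (pos := pos) (neg := neg) (τ := τ) e'
      rw [hr, slot_md] at this
      exact this.symm
    rw [U.hfz] at hc
    have h2 : Share s pos neg e' e := by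
      rcases hc with hc | hc
      · exact Or.inl hc.symm
      · exact Or.inr (Or.inr (Or.inl hc.symm))
    have h3 := unit_eq hsh h2 h1
    subst h3
    rw [R.hdr] at hr
    unfold dr md at hr
    split_ifs at hr <;> omega
  rw [cl_ord hord]
  have hne := U.hne e
  rcases hc with hc | hc
  · rw [if_pos hc]
    exact sw_eq U hsh ⟨e, he, hr.symm, Or.inl ⟨hc, rfl⟩⟩
  · have : pos e ≠ f v := by omega
    rw [if_neg this]
    exact sw_eq U hsh ⟨e, he, hr.symm, Or.inr ⟨hc, rfl⟩⟩

/-- the place of the second vertex of the first pair -/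
theorem pl_dr (U : Units H f s Δ D E pos neg z)
    (hsh : ∀ e e', e ≠ e' → Share s pos neg e e' → τ e ≠ τ e')
    (R : Rows H f s Δ E pos neg z τ row) {e : E} (he : neg e < s) :
    sw s pos neg τ (row (z (e, false, true))) (cl f s neg z (z (e, false, true))) = neg e := by
  rw [cl_sp U he, R.hdr]
  apply sw_id
  rintro ⟨p', e', h1, h2, h3⟩
  have ht : τ e' = τ e := by
    have := slot_md (τ := τ) e'
    rw [h2, slot_dr] at this
    exact this.symm
  have hs : Share s pos neg e' e := by
    rcases h3 with ⟨a, b⟩ | ⟨a, b⟩
    · exact Or.inr (Or.inr (Or.inl a))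
    · exact Or.inr (Or.inl ⟨a, h1⟩)
  have := unit_eq hsh hs ht
  subst this
  unfold dr md at h2
  split_ifs at h2 <;> omega

/-- all cases -/
theorem pl_cases (U : Units H f s Δ D E pos neg z)
    (hsh : ∀ e e', e ≠ e' → Share s pos neg e e' → τ e ≠ τ e')
    (R : Rows H f s Δ E pos neg z τ row) (v : V) :
    sw s pos neg τ (row v) (cl f s neg z v) = f v ∨
      ∃ e, neg e < s ∧ ((v = z (e, false, true) ∧ row v = dr pos neg τ e ∧ pos e = f v ∧
          sw s pos neg τ (row v) (cl f s neg z v) = neg e) ∨
        (row v = md τ e ∧ pos e = f v ∧ sw s pos neg τ (row v) (cl f s neg z v) = neg e) ∨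
        (row v = md τ e ∧ neg e = f v ∧ sw s pos neg τ (row v) (cl f s neg z v) = pos e)) := by
  by_cases h1 : ∃ e, neg e < s ∧ v = z (e, false, true)
  · obtain ⟨e, he, rfl⟩ := h1
    exact Or.inr ⟨e, he, Or.inl ⟨rfl, R.hdr e true, (U.hfz e false true).symm, pl_dr U hsh R he⟩⟩
  · rw [cl_ord h1]
    by_cases h2 : ∃ p', SS s pos neg τ (row v) (f v) p'
    · obtain ⟨p', h2⟩ := h2
      rw [sw_eq U hsh h2]
      obtain ⟨e, he, hm, h3⟩ := h2
      rcases h3 with ⟨a, b⟩ | ⟨a, b⟩
      · exact Or.inr ⟨e, he, Or.inr (Or.inl ⟨hm.symm, a, b.symm⟩)⟩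
      · exact Or.inr ⟨e, he, Or.inr (Or.inr ⟨hm.symm, a, b.symm⟩)⟩
    · exact Or.inl (sw_id h2)

/-- the vertices of the second pair -/
theorem eq_second (U : Units H f s Δ D E pos neg z) (R : Rows H f s Δ E pos neg z τ row)
    {e : E} {c : Bool} {v : V} (hr : row v = row (z (e, true, c))) (hf : pos e = f v) :
    v = z (e, true, c) := by
  by_contra hne
  obtain ⟨e', c', h1, h2⟩ := R.htwo v (z (e, true, c)) hne (by rw [U.hfz]; exact hf.symm) hr
  have := (z_eq U h2).2.1
  exact absurd this (by decide)

theorem goal_aux (U : Units H f s Δ D E pos neg z) (hτ : ∀ e, 3 * τ e + 3 ≤ Δ)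
    (hsh : ∀ e e', e ≠ e' → Share s pos neg e e' → τ e ≠ τ e')
    (R : Rows H f s Δ E pos neg z τ row) {u v : V} (ha : H.Adj u v) (hf : f u = f v)
    (hr : (row u + 1) % Δ = row v) :
    sw s pos neg τ (row u) (cl f s neg z u) ≤ sw s pos neg τ (row v) (cl f s neg z v) := by
  have hu := R.hlt u
  have hv := R.hlt v
  -- the vertices of the middle row and the row `fr`
  have key : ∀ e, neg e < s → pos e = f u → ¬ ((row u = md τ e ∧ row v = fr pos neg τ e) ∨
      (row v = md τ e ∧ row u = fr pos neg τ e)) := by
    intro e he hp hor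
    have h0 := U.hnadj e true
    rcases hor with ⟨h1, h2⟩ | ⟨h1, h2⟩
    · have h3 := eq_second U R (c := false) (h1.trans (R.hmd e he).symm) hp
      have h4 := eq_second U R (c := true) (h2.trans (R.hfr e he).symm) (hp.trans hf)
      rw [h3, h4] at ha
      exact h0 ha
    · have h3 := eq_second U R (c := false) (h1.trans (R.hmd e he).symm) (hp.trans hf)
      have h4 := eq_second U R (c := true) (h2.trans (R.hfr e he).symm) hp
      rw [h3, h4] at ha
      exact h0 ha.symm
  rcases pl_cases U hsh R u with hu0 | ⟨e, he, hu0⟩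
  · -- place of `u` is its class
    rcases pl_cases U hsh R v with hv0 | ⟨e, he, hv0⟩
    · rw [hu0, hv0, hf]
    · have hte := hτ e
      have hne := U.hne e
      by_contra hlt
      push Not at hlt
      rw [hu0] at hlt
      have hmod : row v ≠ 0 → row u + 1 = row v := by
        intro h0
        rcases Nat.lt_or_ge (row u + 1) Δ with h | h
        · rw [Nat.mod_eq_of_lt h] at hr
          exact hr
        · have : row u + 1 = Δ := by omega
          rw [this, Nat.mod_self] at hr
          exact absurd hr.symm h0
      rcases hv0 with ⟨hz, h1, h2, h3⟩ | ⟨h1, h2, h3⟩ | ⟨h1, h2, h3⟩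
      · -- first pair
        have hlt' : ¬ pos e < neg e := by omega
        have hd : dr pos neg τ e = 3 * τ e + 2 := by unfold dr; rw [if_neg hlt']
        have h4 := hmod (by omega)
        have h5 : row u = md τ e := by unfold md; omega
        have h6 := pl_md U hsh R he h5 (Or.inl (h2.trans hf.symm))
        rw [if_pos (h2.trans hf.symm)] at h6
        omega
      · have hlt' : ¬ pos e < neg e := by omega
        have hm : md τ e = 3 * τ e + 1 := rfl
        have h4 := hmod (by omega)
        refine key e he (h2.trans hf.symm) (Or.inr ⟨h1, ?_⟩)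
        unfold fr
        rw [if_neg hlt']
        omega
      · have hlt' : pos e < neg e := by omega
        have hm : md τ e = 3 * τ e + 1 := rfl
        have h4 := hmod (by omega)
        apply R.hnex e u (by omega)
        unfold dr
        rw [if_pos hlt']
        omega
  · have hte := hτ e
    have hne := U.hne e
    -- the row of `v`
    have hmod : row u < 3 * τ e + 2 → row v = row u + 1 := by
      intro h0
      rw [Nat.mod_eq_of_lt (by omega)] at hr
      exact hr.symm
    -- if the place of `u` is at most its class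
    by_cases hle : sw s pos neg τ (row u) (cl f s neg z u) ≤ f u
    · -- then look at `v`
      rcases pl_cases U hsh R v with hv0 | ⟨e', he', hv0⟩
      · rw [hv0, ← hf]
        exact hle
      · by_contra hlt
        push Not at hlt
        have hte' := hτ e'
        have hne' := U.hne e'
        have hmod' : row v ≠ 0 → row u + 1 = row v := by
          intro h0
          rcases Nat.lt_or_ge (row u + 1) Δ with h | h
          · rw [Nat.mod_eq_of_lt h] at hr
            exact hr
          · have : row u + 1 = Δ := by omega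
            rw [this, Nat.mod_self] at hr
            exact absurd hr.symm h0
        rcases hv0 with ⟨hz, h1, h2, h3⟩ | ⟨h1, h2, h3⟩ | ⟨h1, h2, h3⟩
        · have hlt' : ¬ pos e' < neg e' := by omega
          have hd : dr pos neg τ e' = 3 * τ e' + 2 := by unfold dr; rw [if_neg hlt']
          have h4 := hmod' (by omega)
          have h5 : row u = md τ e' := by unfold md; omega
          have h6 := pl_md U hsh R he' h5 (Or.inl (h2.trans hf.symm))
          rw [if_pos (h2.trans hf.symm)] at h6
          omega
        · have hlt' : ¬ pos e' < neg e' := by omega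
          have hm : md τ e' = 3 * τ e' + 1 := rfl
          have h4 := hmod' (by omega)
          refine key e' he' (h2.trans hf.symm) (Or.inr ⟨h1, ?_⟩)
          unfold fr
          rw [if_neg hlt']
          omega
        · have hlt' : pos e' < neg e' := by omega
          have hm : md τ e' = 3 * τ e' + 1 := rfl
          have h4 := hmod' (by omega)
          apply R.hnex e' u (by omega)
          unfold dr
          rw [if_pos hlt']
          omega
    · push Not at hle
      rcases hu0 with ⟨hz, h1, h2, h3⟩ | ⟨h1, h2, h3⟩ | ⟨h1, h2, h3⟩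
      · have hlt' : pos e < neg e := by omega
        have hd : dr pos neg τ e = 3 * τ e := by unfold dr; rw [if_pos hlt']
        have h4 := hmod (by omega)
        have h5 : row v = md τ e := by unfold md; omega
        have h6 := pl_md U hsh R he h5 (Or.inl (h2.trans hf))
        rw [if_pos (h2.trans hf)] at h6
        omega
      · have hlt' : pos e < neg e := by omega
        have hm : md τ e = 3 * τ e + 1 := rfl
        have h4 := hmod (by omega)
        exfalso
        refine key e he h2 (Or.inl ⟨h1, ?_⟩)
        unfold fr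
        rw [if_pos hlt']
        omega
      · have hlt' : ¬ pos e < neg e := by omega
        have hm : md τ e = 3 * τ e + 1 := rfl
        have h4 := hmod (by omega)
        exfalso
        apply R.hnex e v (by omega)
        unfold dr
        rw [if_neg hlt']
        omega

end

theorem goalPLACE : GoalPLACE := by
  intro V _ H f s Δ D E _ pos neg z τ row hS U hτ hsh R
  have hfl : ∀ e, neg e < s → flg s neg z (z (e, false, true)) = 0 := by
    intro e he
    unfold flg
    rw [if_neg]
    rintro ⟨e', h1, h2⟩
    have := (z_eq U h2).1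
    subst this
    omega
  have hsp : ∀ v, flg s neg z v ≠ 0 → ∃ e, neg e = s ∧ v = z (e, false, true) := by
    intro v hv
    unfold flg at hv
    by_contra h
    rw [if_neg h] at hv
    exact hv rfl
  refine ⟨fun v => sw s pos neg τ (row v) (cl f s neg z v), flg s neg z, ?_, ?_, ?_, ?_⟩
  · intro v
    constructor
    · apply sw_lt U hsh
      by_cases h : ∃ e, neg e < s ∧ v = z (e, false, true)
      · obtain ⟨e, he, rfl⟩ := h
        rw [cl_sp U he]
        exact he
      · rw [cl_ord h]
        exact hS.hf v
    · unfold flg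
      split_ifs <;> omega
  · intro u v hrow hpl hflag
    simp only at hpl
    have hcl : cl f s neg z u = cl f s neg z v := by
      have := congrArg (sw s pos neg τ (row u)) hpl
      rw [sw_sw U hsh, hrow, sw_sw U hsh] at this
      exact this
    by_cases h0 : flg s neg z u = 0
    · have h0' : flg s neg z v = 0 := hflag.symm.trans h0
      have hnf : ∀ e, neg e = s → z (e, false, true) ≠ u ∧ z (e, false, true) ≠ v := by
        intro e he
        constructor
        · intro h
          unfold flg at h0
          rw [if_pos ⟨e, he, h.symm⟩] at h0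
          exact absurd h0 one_ne_zero
        · intro h
          unfold flg at h0'
          rw [if_pos ⟨e, he, h.symm⟩] at h0'
          exact absurd h0' one_ne_zero
      by_cases hu : ∃ e, neg e < s ∧ u = z (e, false, true)
      · obtain ⟨e, he, rfl⟩ := hu
        rw [cl_sp U he] at hcl
        by_cases hv : ∃ e, neg e < s ∧ v = z (e, false, true)
        · obtain ⟨e', he', rfl⟩ := hv
          rw [cl_sp U he'] at hcl
          rw [R.hdr, R.hdr] at hrow
          have ht : τ e = τ e' := by
            rw [← slot_dr (pos := pos) (neg := neg) (τ := τ) e, hrow, slot_dr]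
          rw [unit_eq hsh (Or.inr (Or.inl ⟨hcl, he⟩)) ht]
        · rw [cl_ord hv] at hcl
          rw [R.hdr] at hrow
          exact absurd hrow.symm (R.hnex e v hcl.symm)
      · by_cases hv : ∃ e, neg e < s ∧ v = z (e, false, true)
        · obtain ⟨e, he, rfl⟩ := hv
          rw [cl_sp U he, cl_ord hu] at hcl
          rw [R.hdr] at hrow
          exact absurd hrow (R.hnex e u hcl)
        · rw [cl_ord hu, cl_ord hv] at hcl
          by_contra hne
          obtain ⟨e, c, h1, h2⟩ := R.htwo u v hne hcl hrow
          have hle := U.hneg e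
          cases c with
          | true =>
            rcases Nat.lt_or_ge (neg e) s with h | h
            · exact hu ⟨e, h, h1⟩
            · exact (hnf e (by omega)).1 h1.symm
          | false =>
            rcases Nat.lt_or_ge (neg e) s with h | h
            · exact hv ⟨e, h, h2⟩
            · exact (hnf e (by omega)).2 h2.symm
    · obtain ⟨e, he, hu⟩ := hsp u h0
      obtain ⟨e', he', hv⟩ := hsp v (by rw [← hflag]; exact h0)
      have hu' : ¬ ∃ e, neg e < s ∧ u = z (e, false, true) := by
        rintro ⟨e'', h1, h2⟩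
        have := (z_eq U (hu.symm.trans h2)).1
        subst this
        omega
      have hv' : ¬ ∃ e, neg e < s ∧ v = z (e, false, true) := by
        rintro ⟨e'', h1, h2⟩
        have := (z_eq U (hv.symm.trans h2)).1
        subst this
        omega
      rw [cl_ord hu', cl_ord hv', hu, hv, U.hfz, U.hfz] at hcl
      rw [hu, hv, R.hdr, R.hdr] at hrow
      have ht : τ e = τ e' := by
        rw [← slot_dr (pos := pos) (neg := neg) (τ := τ) e, hrow, slot_dr]
      have := unit_eq hsh (Or.inl hcl) ht
      subst this
      rw [hu, hv]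
  · intro g hg p hp
    have hq : sw s pos neg τ g p < s := sw_lt U hsh hp
    obtain ⟨v, h1, h2, h3⟩ : ∃ v, row v = g ∧ cl f s neg z v = sw s pos neg τ g p ∧
        flg s neg z v = 0 := by
      rcases R.hex _ hq g hg with ⟨v, h1, h2⟩ | ⟨e, h1, h2⟩
      · by_cases h : ∃ e, v = z (e, false, true)
        · obtain ⟨e, rfl⟩ := h
          have hn1 : ¬ ∃ e', neg e' < s ∧ z (e, false, false) = z (e', false, true) := by
            rintro ⟨e', h3, h4⟩
            exact absurd (z_eq U h4).2.2 (by decide)
          refine ⟨z (e, false, false), ?_, ?_, ?_⟩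
          · rw [R.hdr]
            rw [R.hdr] at h2
            exact h2
          · rw [cl_ord hn1, U.hfz]
            rw [U.hfz] at h1
            exact h1
          · unfold flg
            rw [if_neg]
            rintro ⟨e', h3, h4⟩
            exact absurd (z_eq U h4).2.2 (by decide)
        · refine ⟨v, h2, ?_, ?_⟩
          · rw [cl_ord (fun ⟨e, he, hv⟩ => h ⟨e, hv⟩)]
            exact h1
          · unfold flg
            rw [if_neg]
            rintro ⟨e', h3, h4⟩
            exact h ⟨e', h4⟩
      · have he : neg e < s := by omega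
        refine ⟨z (e, false, true), ?_, ?_, hfl e he⟩
        · rw [R.hdr]
          exact h2
        · rw [cl_sp U he]
          exact h1
    refine ⟨v, h1, ?_, h3⟩
    simp only
    rw [h1, h2, sw_sw U hsh]
  · intro u v ha
    simp only
    by_cases hf : f u = f v
    · constructor
      · intro hr
        obtain ⟨e, c, h1, h2⟩ := R.htwo u v ha.ne hf hr
        have h0 := U.hnadj e false
        cases c with
        | true =>
          rw [h1, h2] at ha
          exact h0 ha.symm
        | false =>
          rw [h1, h2] at ha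
          exact h0 ha
      · intro hr
        exact goal_aux U hτ hsh R ha hf hr
    · have h0 := R.hfar u v hf ha
      constructor
      · intro hr
        exact h0 (Or.inl hr)
      · intro hr
        exact absurd (Or.inr (Or.inl hr)) h0

end Pool.Agent.Helper36.Sey4
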